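import Pool.Agent.H234R4.DRH.Cyc2

/-!
# The Riemann hypothesis for all characters of a modulus and one averaged Euler product

Let `X = Spec ℤ[1/N, ζ_N]`, of relative dimension `0` over `Spec ℤ[1/N]`.  Its `0`-th L-function is
`L(0;X,s) = ∏_{χ mod N} L(s,χ)`, and the factor of the trivial character is
`L(0;Spec ℤ[1/N],s)`.  Let `P(x)` be the absolute value of the partial Euler product over `p ≤ x` of
the quotient of the two at the central point `s = 1/2`, and `M_κ(x)` the logarithmic mean of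
`log P(n) + κ log log n` over `2 ≤ n ≤ x`.  Then `M_κ(x)` is bounded below if and only if the
quotient has no zero with `Re s > 1/2` and `κ` is at least its order of vanishing at `s = 1/2`, and
`M_κ(x)` converges if and only if it has no zero with `Re s > 1/2` and `κ` equals that order.
-/

set_option autoImplicit false

open Filter Topology

namespace Pool.Agent.Results.MP_7193be_nt.CyclotomicProducts

open Classical in
/-- the nontrivial Dirichlet characters modulo `N` -/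
noncomputable def nontrivial (N : ℕ) [NeZero N] : Finset (DirichletCharacter ℂ N) :=
  Finset.univ.filter (fun χ => χ ≠ 1)

/-- `P(x) = ∏_{χ ≠ 1} ∏_{p ≤ x} |1 - χ(p)/√p|⁻¹`, the products over the nontrivial characters modulo
`N` and over the primes up to `x` -/
noncomputable def P (N : ℕ) [NeZero N] (x : ℕ) : ℝ :=
  ∏ χ ∈ nontrivial N, ∏ p ∈ (Finset.Icc 1 x).filter Nat.Prime,
    ‖1 - χ (p : ZMod N) / (Real.sqrt p : ℂ)‖⁻¹

/-- the logarithmic mean of `log P(n) + κ log log n` over `2 ≤ n ≤ x` -/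
noncomputable def M (N : ℕ) [NeZero N] (κ : ℝ) (x : ℕ) : ℝ :=
  (∑ n ∈ Finset.Icc 2 x, (Real.log (P N n) + κ * Real.log (Real.log n)) / n) / Real.log x

theorem result (N : ℕ) [NeZero N] : ∃ m : DirichletCharacter ℂ N → ℕ,
    (∀ χ : DirichletCharacter ℂ N, χ ≠ 1 → analyticOrderAt χ.LFunction (1 / 2) = m χ) ∧
    (∀ κ : ℝ, (∃ C : ℝ, ∀ᶠ x : ℕ in atTop, C ≤ M N κ x) ↔
      ((∀ χ : DirichletCharacter ℂ N, χ ≠ 1 → ∀ s : ℂ, 1 / 2 < s.re → χ.LFunction s ≠ 0) ∧
        ∑ χ ∈ nontrivial N, (m χ : ℝ) ≤ κ)) ∧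
    (∀ κ : ℝ, (∃ l : ℝ, Tendsto (fun x : ℕ => M N κ x) atTop (𝓝 l)) ↔
      ((∀ χ : DirichletCharacter ℂ N, χ ≠ 1 → ∀ s : ℂ, 1 / 2 < s.re → χ.LFunction s ≠ 0) ∧
        κ = ∑ χ ∈ nontrivial N, (m χ : ℝ))) := by
  have hM : ∀ (κ : ℝ) (x : ℕ), M N κ x = Pool.Agent.H234R4.DRH.LMC N κ x := fun κ x => rfl
  simp only [hM]
  exact Pool.Agent.H234R4.DRH.cyc N

end Pool.Agent.Results.MP_7193be_nt.CyclotomicProducts
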